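import Pool.Agent.helper80.HM.SpecA

/-!
# hm:IN2 — independence
-/

set_option autoImplicit false

namespace Pool.Agent.HM

open Finset Pool.Agent.helper33.Mod

theorem IN2_ind (P Q : Prop) : ind (P ∧ Q) = ind P * ind Q := by
  by_cases hP : P
  · by_cases hQ : Q
    · rw [ind_true ⟨hP, hQ⟩, ind_true hP, ind_true hQ, mul_one]
    · rw [ind_false (fun h => hQ h.2), ind_false hQ, mul_zero]
  · rw [ind_false (fun h => hP h.1), ind_false hP, zero_mul]

theorem IN2 (hRS : RS_stmt) : IN2_stmt := by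
  intro M c D P Q hP hQ
  have h := hRS D (fun h => P h ∧ Q h)
  rw [← h]
  have e : ∀ h0 : Fin M → Fin c, cn (fun h : Fin M → Fin c => P (mix D h0 h) ∧ Q (mix D h0 h)) =
      cn P * ind (Q h0) := by
    intro h0
    have e1 : ∀ h : Fin M → Fin c, (P (mix D h0 h) ∧ Q (mix D h0 h)) = (P h ∧ Q h0) := by
      intro h
      have h1 : P (mix D h0 h) ↔ P h := hP _ _ fun v hv => mix_mem hv
      have h2 : Q (mix D h0 h) ↔ Q h0 := hQ _ _ fun v hv => mix_not_mem (Finset.mem_compl.1 hv)
      rw [propext h1, propext h2]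
    simp only [e1]
    unfold cn
    rw [Finset.sum_mul]
    exact Finset.sum_congr rfl fun h _ => IN2_ind _ _
  rw [Finset.sum_congr rfl fun h0 _ => e h0, ← Finset.mul_sum]
  rfl

end Pool.Agent.HM
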